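import Mathlib

set_option autoImplicit false

/-!
# Axis-aligned binary space partitions of disjoint fat axis-aligned `k`-flats

For `1 < k ≤ d - 3` the axis-aligned partition complexity of `n` disjoint fat axis-aligned
`k`-flats in `ℝ^d` is at least a constant times `n ^ (min d (2 (d - k) - 1) / (d - k))`. This
exceeds every bound of the form `O(n ^ ((d - k + 1) / (d - k)) polylog n)`.
-/

open Set Finset

namespace Pool.Agent.Results.MP_ebf3a9_co.FatFlatsLower

/-- `r` is an `α`-fat axis-aligned `k`-flat in `ℝ^d`: a product of closed intervals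
`[lo j, hi j]`, exactly `k` of which have positive length, the longest extent being at most `α`
times the shortest. -/
def IsFlat (d k : ℕ) (α : ℝ) (r : Set (Fin d → ℝ)) : Prop :=
  ∃ lo hi : Fin d → ℝ, (∀ j, lo j ≤ hi j) ∧ r = Set.Icc lo hi ∧
    (Finset.univ.filter (fun j => lo j < hi j)).card = k ∧
    ∀ i j, lo i < hi i → lo j < hi j → hi i - lo i ≤ α * (hi j - lo j)

/-- Axis-aligned binary partition trees of `ℝ^d`: an internal node carries the hyperplane
`x_j = h`. -/
inductive Tree (d : ℕ) : Type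
  | leaf : Tree d
  | node (j : Fin d) (h : ℝ) (l r : Tree d) : Tree d

/-- The number of nodes (leaves included). -/
def Tree.size {d : ℕ} : Tree d → ℕ
  | .leaf => 1
  | .node _ _ l r => l.size + r.size + 1

/-- `T.IsBSP S D`: the tree `T`, started with the cell `D`, is a binary space partition of the
family `S`. The children of a node with cell `D` and hyperplane `x_j = h` have the cells
`D ∩ {x_j < h}` and `D ∩ {x_j > h}`, and the cell of a leaf meets at most one member of `S`. -/
def Tree.IsBSP {d : ℕ} {ι : Type} (S : ι → Set (Fin d → ℝ)) : Tree d → Set (Fin d → ℝ) → Prop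
  | .leaf, D => ∀ i i', (S i ∩ D).Nonempty → (S i' ∩ D).Nonempty → i = i'
  | .node j h l r, D => l.IsBSP S (D ∩ {x | x j < h}) ∧ r.IsBSP S (D ∩ {x | h < x j})

/-- The minimum size of an axis-aligned binary space partition of the family `S`. -/
noncomputable def bspSize {d n : ℕ} (S : Fin n → Set (Fin d → ℝ)) : ℕ∞ :=
  ⨅ T : {T : Tree d // T.IsBSP S Set.univ}, (T.1.size : ℕ∞)

/-- The axis-aligned partition complexity of `n` pairwise disjoint `α`-fat axis-aligned
`k`-flats in `ℝ^d`. -/
noncomputable def piPerp (d k : ℕ) (α : ℝ) (n : ℕ) : ℕ∞ :=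
  ⨆ S : {S : Fin n → Set (Fin d → ℝ) // (∀ i, IsFlat d k α (S i)) ∧
    ∀ i i', i ≠ i' → Disjoint (S i) (S i')}, bspSize S.1

/-! ### Configurations -/

section core

variable {d : ℕ} {ι : Type} [Fintype ι]

/-- the flat with fixed coordinates `p j`, `j ∈ C`, and extents `[0, L]` -/
def flat (C : Finset (Fin d)) (p : Fin d → ℝ) (L : ℝ) : Set (Fin d → ℝ) :=
  Set.univ.pi fun j => if j ∈ C then {p j} else Set.Icc 0 L

/-- open order-connected boxes -/
def Box (I : Fin d → Set ℝ) : Prop := ∀ j, IsOpen (I j) ∧ (I j).OrdConnected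

/-- left half of a box -/
def lft (I : Fin d → Set ℝ) (j : Fin d) (h : ℝ) : Fin d → Set ℝ :=
  Function.update I j (I j ∩ Set.Iio h)

/-- right half of a box -/
def rgt (I : Fin d → Set ℝ) (j : Fin d) (h : ℝ) : Fin d → Set ℝ :=
  Function.update I j (I j ∩ Set.Ioi h)

lemma Box.lft {I : Fin d → Set ℝ} (hI : Box I) (j : Fin d) (h : ℝ) : Box (lft I j h) := by
  intro i
  unfold FatFlatsLower.lft
  by_cases hij : i = j
  · subst hij
    rw [Function.update_self]
    exact ⟨(hI i).1.inter isOpen_Iio, (hI i).2.inter Set.ordConnected_Iio⟩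
  · rw [Function.update_of_ne hij]; exact hI i

lemma Box.rgt {I : Fin d → Set ℝ} (hI : Box I) (j : Fin d) (h : ℝ) : Box (rgt I j h) := by
  intro i
  unfold FatFlatsLower.rgt
  by_cases hij : i = j
  · subst hij
    rw [Function.update_self]
    exact ⟨(hI i).1.inter isOpen_Ioi, (hI i).2.inter Set.ordConnected_Ioi⟩
  · rw [Function.update_of_ne hij]; exact hI i

lemma pi_lft (I : Fin d → Set ℝ) (j : Fin d) (h : ℝ) :
    Set.univ.pi (lft I j h) = Set.univ.pi I ∩ {x | x j < h} := by
  ext x
  simp only [Set.mem_pi, Set.mem_univ, forall_true_left, Set.mem_inter_iff, Set.mem_ofPred_eq, lft]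
  constructor
  · intro hx
    have hj := hx j
    rw [Function.update_self] at hj
    refine ⟨fun i => ?_, hj.2⟩
    by_cases hij : i = j
    · subst hij; exact hj.1
    · have := hx i; rwa [Function.update_of_ne hij] at this
  · rintro ⟨h1, h2⟩ i
    by_cases hij : i = j
    · subst hij; rw [Function.update_self]; exact ⟨h1 i, h2⟩
    · rw [Function.update_of_ne hij]; exact h1 i

lemma pi_rgt (I : Fin d → Set ℝ) (j : Fin d) (h : ℝ) :
    Set.univ.pi (rgt I j h) = Set.univ.pi I ∩ {x | h < x j} := by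
  ext x
  simp only [Set.mem_pi, Set.mem_univ, forall_true_left, Set.mem_inter_iff, Set.mem_ofPred_eq, rgt]
  constructor
  · intro hx
    have hj := hx j
    rw [Function.update_self] at hj
    refine ⟨fun i => ?_, hj.2⟩
    by_cases hij : i = j
    · subst hij; exact hj.1
    · have := hx i; rwa [Function.update_of_ne hij] at this
  · rintro ⟨h1, h2⟩ i
    by_cases hij : i = j
    · subst hij; rw [Function.update_self]; exact ⟨h1 i, h2⟩
    · rw [Function.update_of_ne hij]; exact h1 i

/-- the flat meets the box -/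
def Meets (C : Finset (Fin d)) (p : Fin d → ℝ) (L : ℝ) (I : Fin d → Set ℝ) : Prop :=
  ∀ j, (j ∈ C → p j ∈ I j) ∧ (j ∉ C → (Set.Icc 0 L ∩ I j).Nonempty)

lemma meets_iff (C : Finset (Fin d)) (p : Fin d → ℝ) (L : ℝ) (I : Fin d → Set ℝ) :
    (flat C p L ∩ Set.univ.pi I).Nonempty ↔ Meets C p L I := by
  rw [flat, ← Set.pi_inter_distrib, Set.univ_pi_nonempty_iff]
  apply forall_congr'
  intro j
  by_cases hj : j ∈ C
  · simp [hj]
  · simp [hj]

/-- an open set meeting an interval of positive length has a point there other than `h` -/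
lemma exists_ne {A : Set ℝ} (hA : IsOpen A) {L : ℝ} (hL : 0 < L) (h : ℝ)
    (hne : (Set.Icc 0 L ∩ A).Nonempty) : ∃ y ∈ Set.Icc 0 L ∩ A, y ≠ h := by
  obtain ⟨y, ⟨hy0, hyL⟩, hyA⟩ := hne
  obtain ⟨ε, hε, hball⟩ := Metric.isOpen_iff.1 hA y hyA
  by_cases hyh : y = h
  · by_cases hy : y < L
    · refine ⟨y + min (ε / 2) (L - y), ⟨⟨?_, ?_⟩, hball ?_⟩, ?_⟩
      · have : 0 < min (ε / 2) (L - y) := lt_min (by linarith) (by linarith)
        linarith
      · have : min (ε / 2) (L - y) ≤ L - y := min_le_right _ _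
        linarith
      · rw [Metric.mem_ball, Real.dist_eq]
        have h1 : 0 < min (ε / 2) (L - y) := lt_min (by linarith) (by linarith)
        have h2 : min (ε / 2) (L - y) ≤ ε / 2 := min_le_left _ _
        rw [abs_lt]; constructor <;> linarith
      · have : 0 < min (ε / 2) (L - y) := lt_min (by linarith) (by linarith)
        intro h3; linarith
    · have hyL' : y = L := le_antisymm hyL (not_lt.1 hy)
      refine ⟨y - min (ε / 2) L, ⟨⟨?_, ?_⟩, hball ?_⟩, ?_⟩
      · have : min (ε / 2) L ≤ L := min_le_right _ _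
        linarith
      · have : 0 < min (ε / 2) L := lt_min (by linarith) (by linarith)
        linarith
      · rw [Metric.mem_ball, Real.dist_eq]
        have h1 : 0 < min (ε / 2) L := lt_min (by linarith) (by linarith)
        have h2 : min (ε / 2) L ≤ ε / 2 := min_le_left _ _
        rw [abs_lt]; constructor <;> linarith
      · have : 0 < min (ε / 2) L := lt_min (by linarith) (by linarith)
        intro h3; linarith
  · exact ⟨y, ⟨⟨hy0, hyL⟩, hyA⟩, hyh⟩

open Classical in
/-- the indices of the flats that meet the box -/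
noncomputable def MM (C : ι → Finset (Fin d)) (p : ι → Fin d → ℝ) (L : ℝ)
    (I : Fin d → Set ℝ) : Finset ι := Finset.univ.filter fun x => Meets (C x) (p x) L I

lemma mem_MM {C : ι → Finset (Fin d)} {p : ι → Fin d → ℝ} {L : ℝ} {I : Fin d → Set ℝ} {x : ι} :
    x ∈ MM C p L I ↔ Meets (C x) (p x) L I := by
  classical
  simp [MM]

lemma count_MM {C : ι → Finset (Fin d)} {p : ι → Fin d → ℝ} {L : ℝ} (hL : 0 < L)
    (huniq : ∀ x y j, j ∈ C x → j ∈ C y → p x j = p y j → x = y)
    {I : Fin d → Set ℝ} (hI : Box I) (j : Fin d) (h : ℝ) [DecidableEq ι] :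
    (MM C p L I).card + (MM C p L (lft I j h) ∩ MM C p L (rgt I j h)).card ≤
      (MM C p L (lft I j h)).card + (MM C p L (rgt I j h)).card + 1 := by
  classical
  set st : Finset ι := Finset.univ.filter fun x => j ∈ C x ∧ p x j = h with hst
  have hst1 : st.card ≤ 1 := by
    rw [Finset.card_le_one]
    intro a ha b hb
    simp only [hst, Finset.mem_filter, Finset.mem_univ, true_and] at ha hb
    exact huniq a b j ha.1 hb.1 (ha.2.trans hb.2.symm)
  have hsub : MM C p L I ⊆ (MM C p L (lft I j h) ∪ MM C p L (rgt I j h)) ∪ st := by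
    intro x hx
    rw [mem_MM] at hx
    simp only [Finset.mem_union, mem_MM]
    by_cases hjC : j ∈ C x
    · rcases lt_trichotomy (p x j) h with h1 | h1 | h1
      · left; left
        intro i
        by_cases hij : i = j
        · subst hij
          simp only [lft, Function.update_self]
          exact ⟨fun _ => ⟨(hx i).1 hjC, h1⟩, fun hn => absurd hjC hn⟩
        · simp only [lft, Function.update_of_ne hij]; exact hx i
      · right
        simp only [hst, Finset.mem_filter, Finset.mem_univ, true_and]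
        exact ⟨hjC, h1⟩
      · left; right
        intro i
        by_cases hij : i = j
        · subst hij
          simp only [rgt, Function.update_self]
          exact ⟨fun _ => ⟨(hx i).1 hjC, h1⟩, fun hn => absurd hjC hn⟩
        · simp only [rgt, Function.update_of_ne hij]; exact hx i
    · obtain ⟨y, hy, hyh⟩ := exists_ne (hI j).1 hL h ((hx j).2 hjC)
      left
      rcases lt_or_gt_of_ne hyh with h1 | h1
      · left
        intro i
        by_cases hij : i = j
        · subst hij
          simp only [lft, Function.update_self]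
          exact ⟨fun hn => absurd hn hjC, fun _ => ⟨y, hy.1, hy.2, h1⟩⟩
        · simp only [lft, Function.update_of_ne hij]; exact hx i
      · right
        intro i
        by_cases hij : i = j
        · subst hij
          simp only [rgt, Function.update_self]
          exact ⟨fun hn => absurd hn hjC, fun _ => ⟨y, hy.1, hy.2, h1⟩⟩
        · simp only [rgt, Function.update_of_ne hij]; exact hx i
  have h1 := Finset.card_le_card hsub
  have h2 := Finset.card_union_le (MM C p L (lft I j h) ∪ MM C p L (rgt I j h)) st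
  have h3 := Finset.card_union_add_card_inter (MM C p L (lft I j h)) (MM C p L (rgt I j h))
  omega

/-! ### Vicinities -/

/-- the interval of the vicinity number `t` -/
def J (t : ℕ) : Set ℝ := Set.Ioo (t : ℝ) (t + 1 / 2)

lemma J_open (t : ℕ) : IsOpen (J t) := isOpen_Ioo

lemma J_unique {s t : ℕ} {y : ℝ} (hs : y ∈ J s) (ht : y ∈ J t) : s = t := by
  obtain ⟨h1, h2⟩ := hs
  obtain ⟨h3, h4⟩ := ht
  have h5 : (s : ℝ) < t + 1 := by linarith
  have h6 : (t : ℝ) < s + 1 := by linarith
  have h7 : s < t + 1 := by exact_mod_cast h5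
  have h8 : t < s + 1 := by exact_mod_cast h6
  omega

lemma J_sub {g t : ℕ} (ht : t < g) : J t ⊆ Set.Ioo 0 (g : ℝ) := by
  rintro y ⟨h1, h2⟩
  have h3 : (t : ℝ) + 1 ≤ g := by exact_mod_cast ht
  have h4 : (0 : ℝ) ≤ t := Nat.cast_nonneg t
  exact ⟨by linarith, by linarith⟩

open Classical in
/-- the vicinity intervals that are met but not covered -/
noncomputable def EE (g : ℕ) (A : Set ℝ) : Finset (Fin g) :=
  Finset.univ.filter fun t => (J t ∩ A).Nonempty ∧ ¬ J t ⊆ A

lemma card_EE (g : ℕ) {A : Set ℝ} (hA : A.OrdConnected) : (EE g A).card ≤ 2 := by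
  classical
  by_contra hcon
  push Not at hcon
  obtain ⟨a, b, c, ha, hb, hc, hab, hac, hbc⟩ := Finset.two_lt_card_iff.1 hcon
  -- sort
  have key : ∀ x y z : Fin g, x ∈ EE g A → y ∈ EE g A → z ∈ EE g A → x < y → y < z → False := by
    intro x y z hx hy hz hxy hyz
    simp only [EE, Finset.mem_filter, Finset.mem_univ, true_and] at hx hy hz
    apply hy.2
    obtain ⟨u, hu, huA⟩ := hx.1
    obtain ⟨w, hw, hwA⟩ := hz.1
    intro m hm
    apply hA.out huA hwA
    have h1 : ((x : ℕ) : ℝ) + 1 ≤ (y : ℕ) := by exact_mod_cast hxy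
    have h2 : ((y : ℕ) : ℝ) + 1 ≤ (z : ℕ) := by exact_mod_cast hyz
    obtain ⟨hu1, hu2⟩ := hu
    obtain ⟨hw1, hw2⟩ := hw
    obtain ⟨hm1, hm2⟩ := hm
    exact ⟨by linarith, by linarith⟩
  rcases lt_trichotomy a b with h1 | h1 | h1
  · rcases lt_trichotomy b c with h2 | h2 | h2
    · exact key a b c ha hb hc h1 h2
    · exact hbc h2
    · rcases lt_trichotomy a c with h3 | h3 | h3
      · exact key a c b ha hc hb h3 h2
      · exact hac h3
      · exact key c a b hc ha hb h3 h1
  · exact hab h1
  · rcases lt_trichotomy b c with h2 | h2 | h2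
    · rcases lt_trichotomy a c with h3 | h3 | h3
      · exact key b a c hb ha hc h1 h3
      · exact hac h3
      · exact key b c a hb hc ha h2 h3
    · exact hbc h2
    · exact key c b a hc hb ha h2 h1

open Classical in
/-- the directions in which the box is bounded inside the vicinity `a` -/
noncomputable def BB {g : ℕ} (V : Finset (Fin d)) (a : Fin d → Fin g) (I : Fin d → Set ℝ) :
    Finset (Fin d) := V.filter fun j => ¬ J (a j) ⊆ I j

open Classical in
/-- the unresolved vicinities -/
noncomputable def UU {g : ℕ} (A : Finset (Fin d → Fin g)) (V : Finset (Fin d)) (w : ℕ)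
    (I : Fin d → Set ℝ) : Finset (Fin d → Fin g) :=
  A.filter fun a => (∀ j ∈ V, (J (a j) ∩ I j).Nonempty) ∧
    (∀ j, j ∉ V → (Set.Ioo 0 (g : ℝ) ∩ I j).Nonempty) ∧ (BB V a I).card < w


lemma mem_BB {g : ℕ} {V : Finset (Fin d)} {a : Fin d → Fin g} {I : Fin d → Set ℝ} {j : Fin d} :
    j ∈ BB V a I ↔ j ∈ V ∧ ¬ J (a j) ⊆ I j := by
  classical
  simp [BB]

lemma mem_UU {g : ℕ} {A : Finset (Fin d → Fin g)} {V : Finset (Fin d)} {w : ℕ}
    {I : Fin d → Set ℝ} {a : Fin d → Fin g} :
    a ∈ UU A V w I ↔ a ∈ A ∧ (∀ j ∈ V, (J (a j) ∩ I j).Nonempty) ∧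
    (∀ j, j ∉ V → (Set.Ioo 0 (g : ℝ) ∩ I j).Nonempty) ∧ (BB V a I).card < w := by
  classical
  simp [UU]

/-- hypotheses on a configuration: `V` is the set of grid directions, `C x` are `c`-subsets of
`V`, `p x` the positions, and `fl C a` is the flat of type `C` near the vicinity `a` -/
structure Conf (ι : Type) [Fintype ι] (g c : ℕ) (V : Finset (Fin d)) (C : ι → Finset (Fin d))
    (p : ι → Fin d → ℝ) (fl : Finset (Fin d) → (Fin d → Fin g) → ι)
    (A : Finset (Fin d → Fin g)) : Prop where
  hg : 0 < g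
  hc1 : 1 ≤ c
  uniq : ∀ x y j, j ∈ C x → j ∈ C y → p x j = p y j → x = y
  type : ∀ K a, K ⊆ V → K.card = c → C (fl K a) = K
  pos : ∀ K a, K ⊆ V → K.card = c → ∀ j ∈ K, p (fl K a) j ∈ J (a j)
  off : ∀ a ∈ A, ∀ b ∈ A, (∀ j ∈ V, a j = b j) → a = b

variable {g c : ℕ} {V : Finset (Fin d)} {C : ι → Finset (Fin d)}
    {p : ι → Fin d → ℝ} {fl : Finset (Fin d) → (Fin d → Fin g) → ι}
    {A : Finset (Fin d → Fin g)}

lemma Conf.meets (hc : Conf ι g c V C p fl A) {K : Finset (Fin d)} {a : Fin d → Fin g}
    (hK : K ⊆ V) (hKc : K.card = c) {I : Fin d → Set ℝ}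
    (h1 : ∀ j ∈ K, J (a j) ⊆ I j) (h2 : ∀ j ∈ V, (J (a j) ∩ I j).Nonempty)
    (h3 : ∀ j, j ∉ V → (Set.Ioo 0 (g : ℝ) ∩ I j).Nonempty) :
    Meets (C (fl K a)) (p (fl K a)) g I := by
  intro j
  rw [hc.type K a hK hKc]
  refine ⟨fun hj => h1 j hj (hc.pos K a hK hKc j hj), fun _ => ?_⟩
  by_cases hjV : j ∈ V
  · obtain ⟨y, hy, hyI⟩ := h2 j hjV
    have := J_sub (a j).2 hy
    exact ⟨y, ⟨this.1.le, this.2.le⟩, hyI⟩
  · obtain ⟨y, hy, hyI⟩ := h3 j hjV
    exact ⟨y, ⟨hy.1.le, hy.2.le⟩, hyI⟩

/-- at a leaf every vicinity is resolved -/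
lemma leaf_UU [DecidableEq ι] (hc : Conf ι g c V C p fl A) {w : ℕ} (hw : V.card = c + w)
    {I : Fin d → Set ℝ} (hleaf : ∀ x y, Meets (C x) (p x) g I → Meets (C y) (p y) g I → x = y) :
    UU A V w I = ∅ := by
  classical
  rw [Finset.eq_empty_iff_forall_notMem]
  intro a ha
  rw [mem_UU] at ha
  obtain ⟨-, h2, h3, h4⟩ := ha
  have hBV : BB V a I ⊆ V := fun j hj => (mem_BB.1 hj).1
  have hcard : c + 1 ≤ (V \ BB V a I).card := by
    rw [Finset.card_sdiff_of_subset hBV]; omega
  obtain ⟨K', hK', hK'c⟩ := Finset.exists_subset_card_eq hcard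
  -- two different `c`-subsets of `K'`
  have hcov : ∀ j ∈ K', J (a j) ⊆ I j := by
    intro j hj
    have := hK' hj
    rw [Finset.mem_sdiff, mem_BB] at this
    by_contra hcon
    exact this.2 ⟨this.1, hcon⟩
  have hKV : K' ⊆ V := fun j hj => (Finset.mem_sdiff.1 (hK' hj)).1
  have hne : K'.Nonempty := Finset.card_pos.1 (by omega)
  obtain ⟨u, hu⟩ := hne
  by_cases hone : ∃ u' ∈ K', u' ≠ u
  · obtain ⟨u', hu', huu⟩ := hone
    have c1 : (K'.erase u).card = c := by rw [Finset.card_erase_of_mem hu]; omega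
    have c2 : (K'.erase u').card = c := by rw [Finset.card_erase_of_mem hu']; omega
    have s1 : K'.erase u ⊆ V := (Finset.erase_subset _ _).trans hKV
    have s2 : K'.erase u' ⊆ V := (Finset.erase_subset _ _).trans hKV
    have m1 := hc.meets s1 c1 (fun j hj => hcov j (Finset.mem_of_mem_erase hj)) h2 h3
    have m2 := hc.meets s2 c2 (fun j hj => hcov j (Finset.mem_of_mem_erase hj)) h2 h3
    have h5 := hleaf _ _ m1 m2
    have h6 := congrArg C h5
    rw [hc.type _ _ s1 c1, hc.type _ _ s2 c2] at h6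
    have h7 : u' ∈ K'.erase u := Finset.mem_erase.2 ⟨huu, hu'⟩
    rw [h6] at h7
    exact (Finset.mem_erase.1 h7).1 rfl
  · push Not at hone
    have : K' ⊆ {u} := fun y hy => Finset.mem_singleton.2 (hone y hy)
    have := Finset.card_le_card this
    rw [Finset.card_singleton, hK'c] at this
    have := hc.hc1
    omega

open Classical in
/-- the vicinities resolved by the cut `x_j = h` -/
noncomputable def RR (A : Finset (Fin d → Fin g)) (V : Finset (Fin d)) (w : ℕ)
    (I : Fin d → Set ℝ) (j : Fin d) (h : ℝ) : Finset (Fin d → Fin g) :=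
  (UU A V w I).filter fun a => j ∈ V ∧ h ∈ J (a j) ∩ I j ∧ j ∉ BB V a I ∧
    (BB V a I).card + 1 = w

lemma mem_RR {w : ℕ} {I : Fin d → Set ℝ} {j : Fin d} {h : ℝ} {a : Fin d → Fin g} :
    a ∈ RR A V w I j h ↔ a ∈ UU A V w I ∧ j ∈ V ∧ h ∈ J (a j) ∩ I j ∧ j ∉ BB V a I ∧
      (BB V a I).card + 1 = w := by
  classical
  simp [RR]

/-- the key counting step: each flat cut by `x_j = h` accounts for at most `2 ^ |V|` vicinities -/
lemma card_RR [DecidableEq ι] (hc : Conf ι g c V C p fl A) {w : ℕ} (hw : V.card = c + w)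
    {I : Fin d → Set ℝ} (hI : Box I) (j : Fin d) (h : ℝ) :
    (RR A V w I j h).card ≤
      2 ^ V.card * (MM C p g (lft I j h) ∩ MM C p g (rgt I j h)).card := by
  classical
  set φ : (Fin d → Fin g) → ι := fun a => fl (V \ insert j (BB V a I)) a with hφ
  have hcardK : ∀ a ∈ RR A V w I j h, (V \ insert j (BB V a I)) ⊆ V ∧
      (V \ insert j (BB V a I)).card = c := by
    intro a ha
    rw [mem_RR] at ha
    obtain ⟨-, hjV, -, hjB, hcard⟩ := ha
    refine ⟨Finset.sdiff_subset, ?_⟩
    have h1 : insert j (BB V a I) ⊆ V := by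
      intro y hy
      rcases Finset.mem_insert.1 hy with rfl | hy
      · exact hjV
      · exact (mem_BB.1 hy).1
    rw [Finset.card_sdiff_of_subset h1, Finset.card_insert_of_notMem hjB]
    omega
  have hmaps : ∀ a ∈ RR A V w I j h, φ a ∈ MM C p g (lft I j h) ∩ MM C p g (rgt I j h) := by
    intro a ha
    obtain ⟨hKV, hKc⟩ := hcardK a ha
    rw [mem_RR] at ha
    obtain ⟨haU, hjV, ⟨hhJ, hhI⟩, hjB, hcard⟩ := ha
    rw [mem_UU] at haU
    obtain ⟨haA, h2, h3, h4⟩ := haU
    have hjK : j ∉ V \ insert j (BB V a I) := by simp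
    have hcov : ∀ i ∈ V \ insert j (BB V a I), J (a i) ⊆ I i := by
      intro i hi
      rw [Finset.mem_sdiff, Finset.mem_insert, not_or, mem_BB] at hi
      by_contra hcon
      exact hi.2.2 ⟨hi.1, hcon⟩
    -- both sides are met near `h`
    have hop : IsOpen (J (a j) ∩ I j) := (J_open _).inter (hI j).1
    obtain ⟨ε, hε, hball⟩ := Metric.isOpen_iff.1 hop h ⟨hhJ, hhI⟩
    have hleft : h - ε / 2 ∈ J (a j) ∩ I j := hball (by
      rw [Metric.mem_ball, Real.dist_eq, abs_lt]; constructor <;> linarith)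
    have hright : h + ε / 2 ∈ J (a j) ∩ I j := hball (by
      rw [Metric.mem_ball, Real.dist_eq, abs_lt]; constructor <;> linarith)
    rw [Finset.mem_inter, mem_MM, mem_MM]
    constructor
    · apply hc.meets hKV hKc
      · intro i hi
        have hij : i ≠ j := fun h => hjK (h ▸ hi)
        simp only [lft, Function.update_of_ne hij]
        exact hcov i hi
      · intro i hi
        by_cases hij : i = j
        · subst hij
          simp only [lft, Function.update_self]
          exact ⟨_, hleft.1, hleft.2, by simp; linarith⟩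
        · simp only [lft, Function.update_of_ne hij]; exact h2 i hi
      · intro i hi
        have hij : i ≠ j := fun h => hi (h ▸ hjV)
        simp only [lft, Function.update_of_ne hij]
        exact h3 i hi
    · apply hc.meets hKV hKc
      · intro i hi
        have hij : i ≠ j := fun h => hjK (h ▸ hi)
        simp only [rgt, Function.update_of_ne hij]
        exact hcov i hi
      · intro i hi
        by_cases hij : i = j
        · subst hij
          simp only [rgt, Function.update_self]
          exact ⟨_, hright.1, hright.2, by simp; linarith⟩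
        · simp only [rgt, Function.update_of_ne hij]; exact h2 i hi
      · intro i hi
        have hij : i ≠ j := fun h => hi (h ▸ hjV)
        simp only [rgt, Function.update_of_ne hij]
        exact h3 i hi
  apply Finset.card_le_mul_card_image_of_maps_to (f := φ) hmaps
  -- fibers
  intro x _
  set F := (RR A V w I j h).filter fun a => φ a = x with hF
  set G : Fin d → Finset (Fin g) := fun i =>
    if i ∈ C x then Finset.univ.filter (fun t : Fin g => p x i ∈ J t)
    else if i = j then Finset.univ.filter (fun t : Fin g => h ∈ J t) else EE g (I i) with hG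
  have hGcard : ∀ i, (G i).card ≤ 2 := by
    intro i
    simp only [hG]
    split_ifs with h1 h2
    · refine le_trans (Finset.card_le_one.2 ?_) (by norm_num)
      intro s hs t ht
      simp only [Finset.mem_filter, Finset.mem_univ, true_and] at hs ht
      exact Fin.ext (J_unique hs ht)
    · refine le_trans (Finset.card_le_one.2 ?_) (by norm_num)
      intro s hs t ht
      simp only [Finset.mem_filter, Finset.mem_univ, true_and] at hs ht
      exact Fin.ext (J_unique hs ht)
    · exact card_EE g (hI i).2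
  -- restriction to `V` is injective on the fiber and lands in a product
  have hinj : F.card ≤ (Fintype.piFinset (fun i : V => G i)).card := by
    apply Finset.card_le_card_of_injOn (fun a => fun i : V => a i)
    · intro a ha
      have ha' : a ∈ RR A V w I j h ∧ φ a = x := by
        have := Finset.mem_coe.1 ha
        rw [hF, Finset.mem_filter] at this
        exact this
      obtain ⟨ha1, ha2⟩ := ha'
      obtain ⟨hKV, hKc⟩ := hcardK a ha1
      have hCx : C x = V \ insert j (BB V a I) := by
        rw [← ha2]; exact hc.type _ _ hKV hKc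
      rw [mem_RR] at ha1
      obtain ⟨haU, hjV, ⟨hhJ, hhI⟩, hjB, hcard⟩ := ha1
      rw [mem_UU] at haU
      obtain ⟨haA, h2, h3, h4⟩ := haU
      rw [Finset.mem_coe, Fintype.mem_piFinset]
      intro i
      simp only [hG]
      split_ifs with h5 h6
      · simp only [Finset.mem_filter, Finset.mem_univ, true_and]
        have := hc.pos _ a hKV hKc i (hCx ▸ h5)
        rw [← ha2]
        exact this
      · simp only [Finset.mem_filter, Finset.mem_univ, true_and]
        rw [h6]; exact hhJ
      · simp only [EE, Finset.mem_filter, Finset.mem_univ, true_and]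
        refine ⟨h2 i i.2, ?_⟩
        rw [hCx, Finset.mem_sdiff, Finset.mem_insert, not_and, not_not] at h5
        rcases h5 i.2 with h7 | h7
        · exact absurd h7 h6
        · exact (mem_BB.1 h7).2
    · intro a ha b hb hab
      have ha' : a ∈ A := by
        have := Finset.mem_coe.1 ha
        rw [hF, Finset.mem_filter, mem_RR, mem_UU] at this
        exact this.1.1.1
      have hb' : b ∈ A := by
        have := Finset.mem_coe.1 hb
        rw [hF, Finset.mem_filter, mem_RR, mem_UU] at this
        exact this.1.1.1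
      apply hc.off a ha' b hb'
      intro i hi
      exact congrFun hab ⟨i, hi⟩
  refine hinj.trans ?_
  rw [Fintype.card_piFinset]
  calc ∏ i : V, (G i).card ≤ ∏ _i : V, 2 := Finset.prod_le_prod' fun i _ => hGcard i
    _ = 2 ^ V.card := by simp

/-- an unresolved vicinity stays unresolved on one side or is resolved by the cut -/
lemma UU_split (hc : Conf ι g c V C p fl A) {w : ℕ} {I : Fin d → Set ℝ} (hI : Box I)
    (j : Fin d) (h : ℝ) [DecidableEq (Fin d → Fin g)] :
    UU A V w I ⊆ (UU A V w (lft I j h) ∪ UU A V w (rgt I j h)) ∪ RR A V w I j h := by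
  classical
  intro a ha
  have haU := ha
  rw [mem_UU] at ha
  obtain ⟨haA, h2, h3, h4⟩ := ha
  simp only [Finset.mem_union]
  have hgR : (0:ℝ) < g := by exact_mod_cast hc.hg
  -- membership on the left
  have left : (∀ y, j ∈ V → y ∈ J (a j) ∩ I j → y < h →
        (insert j (BB V a I)).card < w ∨ (J (a j) ⊆ I j → J (a j) ⊆ Set.Iio h) →
        a ∈ UU A V w (lft I j h)) := by
    intro y hjV hy hyh hor
    rw [mem_UU]
    refine ⟨haA, ?_, ?_, ?_⟩
    · intro i hi
      by_cases hij : i = j
      · subst hij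
        simp only [lft, Function.update_self]
        exact ⟨y, hy.1, hy.2, hyh⟩
      · simp only [lft, Function.update_of_ne hij]; exact h2 i hi
    · intro i hi
      have hij : i ≠ j := fun h => hi (h ▸ hjV)
      simp only [lft, Function.update_of_ne hij]
      exact h3 i hi
    · rcases hor with hor | hor
      · refine lt_of_le_of_lt (Finset.card_le_card ?_) hor
        intro i hi
        rw [mem_BB] at hi
        by_cases hij : i = j
        · rw [hij]; exact Finset.mem_insert_self _ _
        · rw [lft, Function.update_of_ne hij] at hi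
          exact Finset.mem_insert_of_mem (mem_BB.2 hi)
      · refine lt_of_le_of_lt (Finset.card_le_card ?_) h4
        intro i hi
        rw [mem_BB] at hi ⊢
        by_cases hij : i = j
        · subst hij
          rw [lft, Function.update_self] at hi
          refine ⟨hi.1, fun hcon => hi.2 ?_⟩
          exact Set.subset_inter hcon (hor hcon)
        · rw [lft, Function.update_of_ne hij] at hi
          exact hi
  have right : (∀ y, j ∈ V → y ∈ J (a j) ∩ I j → h < y →
        (J (a j) ⊆ I j → J (a j) ⊆ Set.Ioi h) →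
        a ∈ UU A V w (rgt I j h)) := by
    intro y hjV hy hyh hor
    rw [mem_UU]
    refine ⟨haA, ?_, ?_, ?_⟩
    · intro i hi
      by_cases hij : i = j
      · subst hij
        simp only [rgt, Function.update_self]
        exact ⟨y, hy.1, hy.2, hyh⟩
      · simp only [rgt, Function.update_of_ne hij]; exact h2 i hi
    · intro i hi
      have hij : i ≠ j := fun h => hi (h ▸ hjV)
      simp only [rgt, Function.update_of_ne hij]
      exact h3 i hi
    · refine lt_of_le_of_lt (Finset.card_le_card ?_) h4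
      intro i hi
      rw [mem_BB] at hi ⊢
      by_cases hij : i = j
      · subst hij
        rw [rgt, Function.update_self] at hi
        refine ⟨hi.1, fun hcon => hi.2 ?_⟩
        exact Set.subset_inter hcon (hor hcon)
      · rw [rgt, Function.update_of_ne hij] at hi
        exact hi
  by_cases hjV : j ∈ V
  · by_cases hh : h ∈ J (a j) ∩ I j
    · have hop : IsOpen (J (a j) ∩ I j) := (J_open _).inter (hI j).1
      obtain ⟨ε, hε, hball⟩ := Metric.isOpen_iff.1 hop h hh
      have hleft : h - ε / 2 ∈ J (a j) ∩ I j := hball (by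
        rw [Metric.mem_ball, Real.dist_eq, abs_lt]; constructor <;> linarith)
      by_cases hjB : j ∈ BB V a I
      · left; left
        refine left _ hjV hleft (by linarith) (Or.inl ?_)
        rw [Finset.insert_eq_of_mem hjB]; exact h4
      · by_cases hcard : (BB V a I).card + 1 = w
        · right
          rw [mem_RR]
          exact ⟨haU, hjV, hh, hjB, hcard⟩
        · left; left
          refine left _ hjV hleft (by linarith) (Or.inl ?_)
          rw [Finset.card_insert_of_notMem hjB]; omega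
    · left
      obtain ⟨y, hy⟩ := h2 j hjV
      have hyh : y ≠ h := fun h' => hh (h' ▸ hy)
      rcases lt_or_gt_of_ne hyh with h5 | h5
      · left
        refine left y hjV hy h5 (Or.inr ?_)
        intro hsub z hz
        rw [Set.mem_Iio]
        by_contra hcon
        push Not at hcon
        apply hh
        have : h ∈ J (a j) := Set.OrdConnected.out (s := J (a j)) Set.ordConnected_Ioo hy.1 hz
          ⟨h5.le, hcon⟩
        exact ⟨this, hsub this⟩
      · right
        refine right y hjV hy h5 ?_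
        intro hsub z hz
        rw [Set.mem_Ioi]
        by_contra hcon
        push Not at hcon
        apply hh
        have : h ∈ J (a j) := Set.OrdConnected.out (s := J (a j)) Set.ordConnected_Ioo hz hy.1
          ⟨hcon, h5.le⟩
        exact ⟨this, hsub this⟩
  · left
    have hop : IsOpen (Set.Ioo 0 (g:ℝ) ∩ I j) := isOpen_Ioo.inter (hI j).1
    obtain ⟨y, hy⟩ := h3 j hjV
    obtain ⟨ε, hε, hball⟩ := Metric.isOpen_iff.1 hop y hy
    obtain ⟨z, hz, hzh⟩ : ∃ z ∈ Set.Ioo 0 (g:ℝ) ∩ I j, z ≠ h := by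
      by_cases hyh : y = h
      · refine ⟨y + ε / 2, hball ?_, by intro h'; linarith⟩
        rw [Metric.mem_ball, Real.dist_eq, abs_lt]; constructor <;> linarith
      · exact ⟨y, hy, hyh⟩
    have hBB : ∀ I' : Fin d → Set ℝ, (∀ i, i ≠ j → I' i = I i) → BB V a I' = BB V a I := by
      intro I' hI'
      ext i
      rw [mem_BB, mem_BB]
      constructor
      · rintro ⟨h5, h6⟩
        exact ⟨h5, by rwa [← hI' i (fun h => hjV (h ▸ h5))]⟩
      · rintro ⟨h5, h6⟩
        exact ⟨h5, by rwa [hI' i (fun h => hjV (h ▸ h5))]⟩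
    rcases lt_or_gt_of_ne hzh with h5 | h5
    · left
      rw [mem_UU]
      refine ⟨haA, ?_, ?_, ?_⟩
      · intro i hi
        have hij : i ≠ j := fun h => hjV (h ▸ hi)
        simp only [lft, Function.update_of_ne hij]; exact h2 i hi
      · intro i hi
        by_cases hij : i = j
        · subst hij
          simp only [lft, Function.update_self]
          exact ⟨z, hz.1, hz.2, h5⟩
        · simp only [lft, Function.update_of_ne hij]; exact h3 i hi
      · rw [hBB _ (fun i hij => by simp [lft, hij])]; exact h4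
    · right
      rw [mem_UU]
      refine ⟨haA, ?_, ?_, ?_⟩
      · intro i hi
        have hij : i ≠ j := fun h => hjV (h ▸ hi)
        simp only [rgt, Function.update_of_ne hij]; exact h2 i hi
      · intro i hi
        by_cases hij : i = j
        · subst hij
          simp only [rgt, Function.update_self]
          exact ⟨z, hz.1, hz.2, h5⟩
        · simp only [rgt, Function.update_of_ne hij]; exact h3 i hi
      · rw [hBB _ (fun i hij => by simp [rgt, hij])]; exact h4

/-- The main inequality. -/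
theorem main_ineq [DecidableEq ι] (hc : Conf ι g c V C p fl A) {w : ℕ} (hw : V.card = c + w)
    (T : Tree d) : ∀ I : Fin d → Set ℝ, Box I →
      T.IsBSP (fun x => flat (C x) (p x) g) (Set.univ.pi I) →
      (UU A V w I).card + 2 ^ V.card * (MM C p g I).card ≤ 2 ^ V.card * T.size := by
  classical
  induction T with
  | leaf =>
    intro I hI hT
    have hleaf : ∀ x y, Meets (C x) (p x) g I → Meets (C y) (p y) g I → x = y := by
      intro x y hx hy
      exact hT x y ((meets_iff _ _ _ _).2 hx) ((meets_iff _ _ _ _).2 hy)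
    rw [leaf_UU hc hw hleaf, Finset.card_empty, zero_add]
    apply Nat.mul_le_mul_left
    unfold Tree.size
    rw [Finset.card_le_one]
    intro x hx y hy
    exact hleaf x y (mem_MM.1 hx) (mem_MM.1 hy)
  | node j h l r ihl ihr =>
    intro I hI hT
    obtain ⟨hl, hr⟩ := hT
    rw [← pi_lft] at hl
    rw [← pi_rgt] at hr
    have h1 := ihl _ (hI.lft j h) hl
    have h2 := ihr _ (hI.rgt j h) hr
    have hgR : (0:ℝ) < g := by exact_mod_cast hc.hg
    have h3 := count_MM hgR hc.uniq hI j h
    have h4 := card_RR hc hw hI j h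
    have h5 := Finset.card_le_card (UU_split hc (w := w) hI j h)
    have h6 := Finset.card_union_le (UU A V w (lft I j h) ∪ UU A V w (rgt I j h))
      (RR A V w I j h)
    have h7 := Finset.card_union_le (UU A V w (lft I j h)) (UU A V w (rgt I j h))
    have h8 := Nat.mul_le_mul_left (2 ^ V.card) h3
    simp only [Tree.size]
    simp only [Nat.mul_add, Nat.mul_one] at h8 ⊢
    omega
end core

/-! ### The configuration -/

section build

open Classical in
lemma exists_types {d c v g n : ℕ} (hv : v ≤ d) (hcv : c ≤ v) (hg : 0 < g)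
    (hn : v.choose c * g ^ c ≤ n) :
    ∃ (V : Finset (Fin d)) (C : Fin n → Finset (Fin d)) (z : Fin n → Fin d → ℕ)
      (fl : Finset (Fin d) → (Fin d → Fin g) → Fin n), V.card = v ∧
      (∀ i, C i ⊆ V ∧ (C i).card = c) ∧
      ∀ K a, K ⊆ V → K.card = c → C (fl K a) = K ∧ ∀ j ∈ K, z (fl K a) j = a j := by
  obtain ⟨V, -, hV⟩ := Finset.exists_subset_card_eq (s := (Finset.univ : Finset (Fin d))) (n := v)
    (by simpa using hv)
  let ι0 : Type := Σ K : {K // K ∈ V.powersetCard c}, (K.1 → Fin g)
  have hcard : Fintype.card ι0 = v.choose c * g ^ c := by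
    simp only [ι0]
    rw [Fintype.card_sigma]
    have : ∀ K : {K // K ∈ V.powersetCard c}, Fintype.card (K.1 → Fin g) = g ^ c := by
      intro K
      rw [Fintype.card_fun, Fintype.card_fin, Fintype.card_coe, (Finset.mem_powersetCard.1 K.2).2]
    rw [Finset.sum_congr rfl (fun K _ => this K), Finset.sum_const, Finset.card_univ,
      Fintype.card_coe, Finset.card_powersetCard, hV, smul_eq_mul]
  have hpos : 0 < v.choose c * g ^ c := Nat.mul_pos (Nat.choose_pos hcv) (pow_pos hg c)
  have hne0 : Nonempty ι0 := by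
    rw [← Fintype.card_pos_iff, hcard]; exact hpos
  obtain ⟨e⟩ : Nonempty (ι0 ↪ Fin n) := Function.Embedding.nonempty_of_card_le (by
    rw [hcard, Fintype.card_fin]; exact hn)
  have hinv : ∀ x, Function.invFun e (e x) = x := Function.leftInverse_invFun e.injective
  let f : Fin n → ι0 := Function.invFun e
  let Cf : ι0 → Finset (Fin d) := fun x => x.1.1
  let zf : ι0 → Fin d → ℕ := fun x j => if hj : j ∈ x.1.1 then (x.2 ⟨j, hj⟩ : ℕ) else 0
  let fl : Finset (Fin d) → (Fin d → Fin g) → Fin n := fun K a =>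
    if hK : K ∈ V.powersetCard c then e ⟨⟨K, hK⟩, fun j => a j⟩ else ⟨0, lt_of_lt_of_le hpos hn⟩
  refine ⟨V, fun i => Cf (f i), fun i j => zf (f i) j, fl, hV, ?_, ?_⟩
  · intro i
    exact Finset.mem_powersetCard.1 (f i).1.2
  · intro K a hK hKc
    have hmem : K ∈ V.powersetCard c := Finset.mem_powersetCard.2 ⟨hK, hKc⟩
    have h1 : fl K a = e ⟨⟨K, hmem⟩, fun j => a j⟩ := dif_pos hmem
    have hf : f (fl K a) = ⟨⟨K, hmem⟩, fun j => a j⟩ := by rw [h1]; exact hinv _
    have h2 : Cf (f (fl K a)) = K := by rw [hf]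
    have h3 : ∀ j ∈ K, zf (f (fl K a)) j = a j := by
      intro j hj
      rw [hf]
      simp [zf, hj]
    exact ⟨h2, h3⟩

/-- the offset of the flat number `i` -/
noncomputable def τ {n : ℕ} (i : Fin n) : ℝ := ((i : ℕ) + 1 : ℝ) / (2 * (n + 1))

lemma τ_pos {n : ℕ} (i : Fin n) : 0 < τ i := by unfold τ; positivity

lemma τ_lt {n : ℕ} (i : Fin n) : τ i < 1 / 2 := by
  unfold τ
  rw [div_lt_div_iff₀ (by positivity) (by norm_num)]
  have : ((i : ℕ) : ℝ) + 1 ≤ n := by exact_mod_cast i.2
  linarith

lemma τ_inj {n : ℕ} {i i' : Fin n} {a b : ℕ} (h : (a : ℝ) + τ i = b + τ i') : i = i' := by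
  have h1 := τ_pos i
  have h2 := τ_lt i
  have h3 := τ_pos i'
  have h4 := τ_lt i'
  have h5 : (a : ℝ) < b + 1 := by linarith
  have h6 : (b : ℝ) < a + 1 := by linarith
  have h7 : a < b + 1 := by exact_mod_cast h5
  have h8 : b < a + 1 := by exact_mod_cast h6
  have h9 : a = b := by omega
  subst h9
  have h10 : τ i = τ i' := by linarith
  unfold τ at h10
  have hn : (0:ℝ) < 2 * (n + 1) := by positivity
  rw [div_left_inj' hn.ne'] at h10
  have h11 : ((i : ℕ) : ℝ) = (i' : ℕ) := by linarith
  exact Fin.ext (by exact_mod_cast h11)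

lemma flat_eq_Icc {d : ℕ} (C : Finset (Fin d)) (p : Fin d → ℝ) (L : ℝ) :
    flat C p L = Set.Icc (fun j => if j ∈ C then p j else 0) (fun j => if j ∈ C then p j else L) := by
  ext x
  simp only [flat, Set.mem_pi, Set.mem_univ, forall_true_left, Set.mem_Icc, Pi.le_def]
  constructor
  · intro h
    constructor
    · intro j
      have := h j
      by_cases hj : j ∈ C
      · simp only [hj, if_true, Set.mem_singleton_iff] at this ⊢; rw [this]
      · simp only [hj, if_false] at this ⊢; exact this.1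
    · intro j
      have := h j
      by_cases hj : j ∈ C
      · simp only [hj, if_true, Set.mem_singleton_iff] at this ⊢; rw [this]
      · simp only [hj, if_false] at this ⊢; exact this.2
  · rintro ⟨h1, h2⟩ j
    have h3 := h1 j
    have h4 := h2 j
    by_cases hj : j ∈ C
    · simp only [hj, if_true, Set.mem_singleton_iff] at h3 h4 ⊢; exact le_antisymm h4 h3
    · simp only [hj, if_false] at h3 h4 ⊢; exact ⟨h3, h4⟩

lemma isFlat_flat {d k c : ℕ} {α : ℝ} (hα : 1 ≤ α) (hdk : d = k + c) {C : Finset (Fin d)}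
    (hC : C.card = c) (p : Fin d → ℝ) {L : ℝ} (hL : 0 < L) : IsFlat d k α (flat C p L) := by
  refine ⟨_, _, ?_, flat_eq_Icc C p L, ?_, ?_⟩
  · intro j
    by_cases hj : j ∈ C <;> simp [hj, hL.le]
  · have : (Finset.univ.filter fun j => (if j ∈ C then p j else 0) < (if j ∈ C then p j else L)) =
        Cᶜ := by
      ext j
      by_cases hj : j ∈ C <;> simp [hj, hL]
    rw [this, Finset.card_compl, Fintype.card_fin, hC]; omega
  · intro i j hi hj
    by_cases hi' : i ∈ C
    · simp [hi'] at hi
    · by_cases hj' : j ∈ C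
      · simp [hj'] at hj
      · simp only [hi', hj', if_false]
        nlinarith

/-- The grid configuration. -/
theorem grid {d k c v g n w : ℕ} {α : ℝ} (hα : 1 ≤ α) (hdk : d = k + c) (hc1 : 1 ≤ c)
    (hv : v ≤ d) (hvc : v < 2 * c) (hw : v = c + w) (hw1 : 0 < w) (hg : 0 < g)
    (hn : v.choose c * g ^ c ≤ n) :
    ∃ S : Fin n → Set (Fin d → ℝ), (∀ i, IsFlat d k α (S i)) ∧
      (∀ i i', i ≠ i' → Disjoint (S i) (S i')) ∧
      ∀ T : Tree d, T.IsBSP S Set.univ → g ^ v ≤ 2 ^ v * T.size := by
  classical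
  obtain ⟨V, C, z, fl, hV, hC, hfl⟩ := exists_types hv (by omega) hg hn
  have hgR : (0:ℝ) < g := by exact_mod_cast hg
  set p : Fin n → Fin d → ℝ := fun i j => (z i j : ℝ) + τ i with hp
  set A : Finset (Fin d → Fin g) :=
    Fintype.piFinset (fun j : Fin d => if j ∈ V then Finset.univ else {⟨0, hg⟩}) with hA
  have hconf : Conf (Fin n) g c V C p fl A := by
    refine ⟨hg, hc1, ?_, ?_, ?_, ?_⟩
    · intro x y j _ _ h
      exact τ_inj h
    · intro K a hK hKc
      exact (hfl K a hK hKc).1
    · intro K a hK hKc j hj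
      have h1 := (hfl K a hK hKc).2 j hj
      simp only [hp]
      rw [h1]
      have h2 := τ_pos (fl K a)
      have h3 := τ_lt (fl K a)
      exact ⟨by linarith, by linarith⟩
    · intro a ha b hb hab
      funext j
      by_cases hj : j ∈ V
      · exact hab j hj
      · have h1 := Fintype.mem_piFinset.1 ha j
        have h2 := Fintype.mem_piFinset.1 hb j
        simp only [hj, if_false, Finset.mem_singleton] at h1 h2
        rw [h1, h2]
  refine ⟨fun x => flat (C x) (p x) g, fun i => isFlat_flat hα hdk (hC i).2 _ hgR, ?_, ?_⟩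
  · intro i i' hii
    rw [Set.disjoint_left]
    intro x hx hx'
    have hinter : (C i ∩ C i').Nonempty := by
      rw [← Finset.card_pos]
      have h1 := Finset.card_union_add_card_inter (C i) (C i')
      have h2 : (C i ∪ C i').card ≤ V.card :=
        Finset.card_le_card (Finset.union_subset (hC i).1 (hC i').1)
      have h3 := (hC i).2
      have h4 := (hC i').2
      omega
    obtain ⟨j, hj⟩ := hinter
    rw [Finset.mem_inter] at hj
    have h1 := hx j (Set.mem_univ j)
    have h2 := hx' j (Set.mem_univ j)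
    simp only [hj.1, hj.2, if_true, Set.mem_singleton_iff] at h1 h2
    exact hii (τ_inj (h1.symm.trans h2))
  · intro T hT
    have hbox : Box (fun _ : Fin d => (Set.univ : Set ℝ)) :=
      fun j => ⟨isOpen_univ, Set.ordConnected_univ⟩
    have h1 := main_ineq hconf (w := w) (by rw [hV, hw]) T (fun _ => Set.univ) hbox
      (by rw [Set.pi_univ]; exact hT)
    have h2 : UU A V w (fun _ => Set.univ) = A := by
      ext a
      rw [mem_UU]
      constructor
      · exact fun h => h.1
      · intro ha
        refine ⟨ha, fun j _ => ?_, fun j _ => ?_, ?_⟩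
        · rw [Set.inter_univ]
          exact ⟨(a j : ℕ) + 1 / 4, by constructor <;> norm_num⟩
        · rw [Set.inter_univ]
          exact ⟨(g:ℝ) / 2, by constructor <;> linarith⟩
        · have : BB V a (fun _ => Set.univ) = ∅ := by
            rw [Finset.eq_empty_iff_forall_notMem]
            intro j hj
            rw [mem_BB] at hj
            exact hj.2 (Set.subset_univ _)
          rw [this]; simpa using hw1
    have h3 : A.card = g ^ v := by
      rw [hA, Fintype.card_piFinset]
      have : ∀ j : Fin d, (if j ∈ V then (Finset.univ : Finset (Fin g)) else {⟨0, hg⟩}).card =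
          if j ∈ V then g else 1 := by
        intro j
        by_cases hj : j ∈ V <;> simp [hj]
      rw [Finset.prod_congr rfl (fun j _ => this j), Finset.prod_ite, Finset.prod_const,
        Finset.prod_const_one, mul_one]
      have h4 : (Finset.univ.filter fun j => j ∈ V) = V := by ext j; simp
      rw [h4, hV]
    rw [h2, h3, hV] at h1
    omega

/-! ### Finiteness -/

/-- cut along all hyperplanes of the list -/
def full {d : ℕ} : List (Fin d × ℝ) → Tree d
  | [] => .leaf
  | (j, h) :: t => .node j h (full t) (full t)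

lemma full_size {d : ℕ} (l : List (Fin d × ℝ)) : (full l).size + 1 = 2 ^ (l.length + 1) := by
  induction l with
  | nil => simp [full, Tree.size]
  | cons a t ih =>
    obtain ⟨j, h⟩ := a
    simp only [full, Tree.size, List.length_cons]
    rw [pow_succ]
    omega

lemma full_isBSP {d n : ℕ} (S : Fin n → Set (Fin d → ℝ)) (l : List (Fin d × ℝ)) :
    ∀ D : Set (Fin d → ℝ), (∀ i, S i ∩ D = ∅ ∨ ∃ q ∈ l, S i ⊆ {x | x q.1 = q.2}) →
      (full l).IsBSP S D := by
  induction l with
  | nil =>
    intro D h i i' h1 h2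
    rcases h i with h3 | ⟨q, hq, -⟩
    · rw [h3] at h1; exact absurd h1 Set.not_nonempty_empty
    · simp at hq
  | cons a t ih =>
    intro D h
    obtain ⟨j, c⟩ := a
    constructor
    · apply ih
      intro i
      rcases h i with h3 | ⟨q, hq, hS⟩
      · left
        rw [← Set.inter_assoc, h3, Set.empty_inter]
      · rcases List.mem_cons.1 hq with rfl | hq
        · left
          rw [Set.eq_empty_iff_forall_notMem]
          rintro x ⟨hx, -, hx2⟩
          exact absurd (hS hx) (ne_of_lt hx2)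
        · right; exact ⟨q, hq, hS⟩
    · apply ih
      intro i
      rcases h i with h3 | ⟨q, hq, hS⟩
      · left
        rw [← Set.inter_assoc, h3, Set.empty_inter]
      · rcases List.mem_cons.1 hq with rfl | hq
        · left
          rw [Set.eq_empty_iff_forall_notMem]
          rintro x ⟨hx, -, hx2⟩
          exact absurd (hS hx) (ne_of_gt hx2)
        · right; exact ⟨q, hq, hS⟩

lemma piPerp_le {d k : ℕ} (hk : k < d) (α : ℝ) (n : ℕ) :
    piPerp d k α n ≤ ((2 ^ (n + 1) : ℕ) : ℕ∞) := by
  apply iSup_le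
  rintro ⟨S, hS, -⟩
  have h1 : ∀ i, ∃ q : Fin d × ℝ, S i ⊆ {x | x q.1 = q.2} := by
    intro i
    obtain ⟨lo, hi, hle, hSi, hcard, -⟩ := hS i
    obtain ⟨j, hj⟩ : ∃ j, ¬ lo j < hi j := by
      by_contra hcon
      push Not at hcon
      have : (Finset.univ.filter (fun j => lo j < hi j)) = Finset.univ := by
        ext j; simp [hcon j]
      rw [this, Finset.card_univ, Fintype.card_fin] at hcard
      omega
    refine ⟨(j, lo j), ?_⟩
    rw [hSi]
    rintro x ⟨hx1, hx2⟩
    have h2 : hi j = lo j := le_antisymm (not_lt.1 hj) (hle j)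
    exact le_antisymm ((hx2 j).trans h2.le) (hx1 j)
  choose q hq using h1
  set l : List (Fin d × ℝ) := List.ofFn q with hl
  have hB : (full l).IsBSP S Set.univ := by
    apply full_isBSP
    intro i
    right
    exact ⟨q i, List.mem_ofFn.2 ⟨i, rfl⟩, hq i⟩
  refine (iInf_le _ ⟨full l, hB⟩).trans ?_
  have h3 := full_size l
  rw [hl, List.length_ofFn] at h3
  exact_mod_cast (by omega : (full (List.ofFn q)).size ≤ 2 ^ (n + 1))

end build

/-! ### The result -/

/-- lower bound with an explicit exponent -/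
theorem lower {d k c v w : ℕ} {α : ℝ} (hα : 1 ≤ α) (hdk : d = k + c) (hc1 : 1 ≤ c)
    (hv : v ≤ d) (hvc : v < 2 * c) (hw : v = c + w) (hw1 : 0 < w) :
    ∃ c₀ : ℝ, 0 < c₀ ∧ ∀ n : ℕ,
      ((⌈c₀ * (n : ℝ) ^ ((v : ℝ) / c)⌉₊ : ℕ) : ℕ∞) ≤ piPerp d k α n := by
  set t : ℕ := v.choose c with ht
  have ht1 : 1 ≤ t := Nat.choose_pos (by omega)
  have hcR : (0:ℝ) < c := by exact_mod_cast hc1
  have htR : (1:ℝ) ≤ t := by exact_mod_cast ht1
  set e : ℝ := (v : ℝ) / c with he
  have he0 : 0 < e := by
    have : (0:ℝ) < v := by exact_mod_cast (by omega : 0 < v)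
    positivity
  set M : ℝ := ((t : ℝ) * 2 ^ c) ^ e * 2 ^ v with hM
  have hbase : (1:ℝ) ≤ (t : ℝ) * 2 ^ c := by
    have : (1:ℝ) ≤ 2 ^ c := one_le_pow₀ (by norm_num)
    nlinarith
  have hMpos : 0 < M := by positivity
  have h2v : (1:ℝ) ≤ 2 ^ v := one_le_pow₀ (by norm_num)
  refine ⟨1 / M, by positivity, ?_⟩
  intro n
  by_cases hnt : n < t
  · -- small `n`
    rcases Nat.eq_zero_or_pos n with rfl | hn0
    · have : (1 / M * ((0:ℕ) : ℝ) ^ e) = 0 := by
        rw [Nat.cast_zero, Real.zero_rpow he0.ne', mul_zero]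
      rw [this]; simp
    have h1 : (1 / M * (n : ℝ) ^ e) ≤ 1 := by
      rw [div_mul_eq_mul_div, one_mul, div_le_one hMpos, hM]
      have h2 : (n : ℝ) ^ e ≤ ((t : ℝ) * 2 ^ c) ^ e := by
        apply Real.rpow_le_rpow (Nat.cast_nonneg n) _ he0.le
        have h3 : (n : ℝ) ≤ t := by exact_mod_cast hnt.le
        have h4 : (1:ℝ) ≤ 2 ^ c := one_le_pow₀ (by norm_num)
        nlinarith
      have h3 : 0 ≤ ((t : ℝ) * 2 ^ c) ^ e := by positivity
      nlinarith
    have h5 : ⌈1 / M * (n : ℝ) ^ e⌉₊ ≤ 1 := by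
      rw [Nat.ceil_le]; exact_mod_cast h1
    -- any family gives size at least one
    have h6 : ∃ S : Fin n → Set (Fin d → ℝ), (∀ i, IsFlat d k α (S i)) ∧
        ∀ i i', i ≠ i' → Disjoint (S i) (S i') := by
      obtain ⟨K, -, hK⟩ := Finset.exists_subset_card_eq
        (s := (Finset.univ : Finset (Fin d))) (n := c) (by simp; omega)
      refine ⟨fun i => flat K (fun _ => τ i) 1, fun i => isFlat_flat hα hdk hK _ one_pos, ?_⟩
      intro i i' hii
      rw [Set.disjoint_left]
      intro x hx hx'
      obtain ⟨j, hj⟩ : K.Nonempty := Finset.card_pos.1 (by omega)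
      have h1 := hx j (Set.mem_univ j)
      have h2 := hx' j (Set.mem_univ j)
      simp only [hj, if_true, Set.mem_singleton_iff] at h1 h2
      refine hii (τ_inj (a := 0) (b := 0) ?_)
      rw [← h1, ← h2]
    obtain ⟨S, hS1, hS2⟩ := h6
    refine le_trans ?_ (le_iSup _ ⟨S, hS1, hS2⟩)
    apply le_iInf
    rintro ⟨T, hT⟩
    have h7 : 1 ≤ T.size := by cases T <;> simp [Tree.size]
    exact_mod_cast h5.trans h7
  · push Not at hnt
    -- choose `g`
    set P : ℕ → Prop := fun g => t * g ^ c ≤ n with hP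
    have hP1 : P 1 := by simp only [hP, one_pow, mul_one]; exact hnt
    have hn1 : 1 ≤ n := ht1.trans hnt
    classical
    set g := Nat.findGreatest P n with hg
    have hg1 : 1 ≤ g := Nat.le_findGreatest hn1 hP1
    have hPg : t * g ^ c ≤ n := Nat.findGreatest_spec (P := P) hn1 hP1
    have hnot : n < t * (g + 1) ^ c := by
      by_contra hcon
      push Not at hcon
      have h1 : g + 1 ≤ n := by
        calc g + 1 ≤ (g + 1) ^ c := Nat.le_self_pow (by omega) _
          _ ≤ t * (g + 1) ^ c := Nat.le_mul_of_pos_left _ ht1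
          _ ≤ n := hcon
      have h2 := Nat.le_findGreatest (P := P) h1 hcon
      omega
    obtain ⟨S, hS1, hS2, hS3⟩ := grid (d := d) (k := k) (c := c) (v := v) (g := g) (n := n)
      (w := w) hα hdk hc1 hv hvc hw hw1 hg1 hPg
    refine le_trans ?_ (le_iSup _ ⟨S, hS1, hS2⟩)
    apply le_iInf
    rintro ⟨T, hT⟩
    have h3 := hS3 T hT
    have h4 : ⌈1 / M * (n : ℝ) ^ e⌉₊ ≤ T.size := by
      rw [Nat.ceil_le]
      have h5 : ((g : ℝ)) ^ v ≤ 2 ^ v * T.size := by exact_mod_cast h3
      have h6 : (n : ℝ) ≤ ((t : ℝ) * 2 ^ c) * (g : ℝ) ^ c := by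
        have h7 : n ≤ t * (2 * g) ^ c := by
          refine hnot.le.trans ?_
          apply Nat.mul_le_mul_left
          apply Nat.pow_le_pow_left
          omega
        calc (n : ℝ) ≤ ((t * (2 * g) ^ c : ℕ) : ℝ) := by exact_mod_cast h7
          _ = ((t : ℝ) * 2 ^ c) * (g : ℝ) ^ c := by push_cast; rw [mul_pow]; ring
      have h7 : (n : ℝ) ^ e ≤ ((t : ℝ) * 2 ^ c) ^ e * (g : ℝ) ^ v := by
        calc (n : ℝ) ^ e ≤ (((t : ℝ) * 2 ^ c) * (g : ℝ) ^ c) ^ e :=
              Real.rpow_le_rpow (Nat.cast_nonneg n) h6 he0.le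
          _ = ((t : ℝ) * 2 ^ c) ^ e * ((g : ℝ) ^ c) ^ e :=
              Real.mul_rpow (by positivity) (by positivity)
          _ = ((t : ℝ) * 2 ^ c) ^ e * (g : ℝ) ^ v := by
              congr 1
              rw [← Real.rpow_natCast (g:ℝ) c, ← Real.rpow_mul (Nat.cast_nonneg g), he,
                mul_div_cancel₀ _ hcR.ne', Real.rpow_natCast]
      rw [div_mul_eq_mul_div, one_mul, div_le_iff₀ hMpos, hM]
      have h8 : 0 ≤ ((t : ℝ) * 2 ^ c) ^ e := by positivity
      calc (n : ℝ) ^ e ≤ ((t : ℝ) * 2 ^ c) ^ e * (g : ℝ) ^ v := h7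
        _ ≤ ((t : ℝ) * 2 ^ c) ^ e * (2 ^ v * T.size) := mul_le_mul_of_nonneg_left h5 h8
        _ = (T.size : ℝ) * (((t : ℝ) * 2 ^ c) ^ e * 2 ^ v) := by ring
    exact_mod_cast h4

open Filter in
/-- Let `1 < k ≤ d - 3` and `α ≥ 1`, and put `e = min d (2 (d - k) - 1) / (d - k)`. There is a
`c₀ > 0` such that the axis-aligned partition complexity `π_⊥(n)` of `n` disjoint `α`-fat
axis-aligned `k`-flats in `ℝ^d` is at least `c₀ n ^ e` for all `n`; it is finite; and for all real
`K` and natural `m` it exceeds `K n ^ ((d - k + 1) / (d - k)) (log n) ^ m` for all large `n`. -/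
theorem result (d k : ℕ) (hk : 1 < k) (hd : k + 3 ≤ d) (α : ℝ) (hα : 1 ≤ α) :
    (∃ c₀ : ℝ, 0 < c₀ ∧ ∀ n : ℕ,
      ((⌈c₀ * (n : ℝ) ^ (((min d (2 * (d - k) - 1) : ℕ) : ℝ) / ((d - k : ℕ) : ℝ))⌉₊ : ℕ) : ℕ∞) ≤
        piPerp d k α n) ∧
    (∀ n : ℕ, piPerp d k α n < ⊤) ∧
    ∀ (K : ℝ) (m : ℕ), ∀ᶠ n : ℕ in atTop,
      ((⌈K * (n : ℝ) ^ (((d - k + 1 : ℕ) : ℝ) / ((d - k : ℕ) : ℝ)) * Real.log n ^ m⌉₊ : ℕ) : ℕ∞) <
        piPerp d k α n := by
  set c : ℕ := d - k with hc
  set v : ℕ := min d (2 * c - 1) with hv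
  have hvc2 : c + 2 ≤ v := by omega
  obtain ⟨c₀, hc₀, hlow⟩ := lower (d := d) (k := k) (c := c) (v := v) (w := v - c) (α := α) hα
    (by omega) (by omega) (by omega) (by omega) (by omega) (by omega)
  refine ⟨⟨c₀, hc₀, hlow⟩, ?_, ?_⟩
  · intro n
    exact (piPerp_le (by omega) α n).trans_lt (ENat.natCast_lt_top _)
  · intro K m
    have hcR : (0:ℝ) < c := by exact_mod_cast (by omega : 0 < c)
    set e : ℝ := (v : ℝ) / c with he
    set e' : ℝ := ((c + 1 : ℕ) : ℝ) / c with he'
    set s : ℝ := (e - e') / 2 with hs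
    have hes : 1 / c ≤ e - e' := by
      rw [he, he', ← sub_div]
      apply div_le_div_of_nonneg_right _ hcR.le
      have : (c : ℝ) + 2 ≤ v := by exact_mod_cast hvc2
      push_cast
      linarith
    have hspos : 0 < s := by
      have : 0 < 1 / (c : ℝ) := by positivity
      rw [hs]; linarith
    have he'0 : 0 < e' := by rw [he']; positivity
    have h1 : (fun x : ℝ => Real.log x ^ m) =o[atTop] fun x : ℝ => x ^ s := by
      have := isLittleO_log_rpow_rpow_atTop (m : ℝ) hspos
      simpa only [Real.rpow_natCast] using this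
    have h2 := (h1.bound (c := 1) one_pos)
    have h3 : Tendsto (fun n : ℕ => (n : ℝ)) atTop atTop := tendsto_natCast_atTop_atTop
    have h4 := h3.eventually h2
    have h5 : Tendsto (fun n : ℕ => c₀ * (n : ℝ) ^ s) atTop atTop :=
      ((tendsto_rpow_atTop hspos).comp h3).const_mul_atTop hc₀
    filter_upwards [h4, h5.eventually_ge_atTop (|K| + 2), eventually_ge_atTop 3] with n h6 h7 h8
    have hn1 : (1:ℝ) ≤ n := by exact_mod_cast (by omega : 1 ≤ n)
    have hn0 : (0:ℝ) < n := by linarith
    refine lt_of_lt_of_le ?_ (hlow n)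
    rw [Nat.cast_lt, Nat.lt_ceil]
    have h9 : Real.log n ^ m ≤ (n : ℝ) ^ s := by
      have h10 := h6
      rw [Real.norm_eq_abs, Real.norm_eq_abs, one_mul, abs_of_nonneg (by positivity : 0 ≤ (n:ℝ) ^ s)]
        at h10
      exact (le_abs_self _).trans h10
    have hlog : 0 ≤ Real.log n ^ m := by
      have : 0 ≤ Real.log n := Real.log_nonneg hn1
      positivity
    have h11 : K * (n : ℝ) ^ e' * Real.log n ^ m ≤ |K| * (n : ℝ) ^ (e' + s) := by
      calc K * (n : ℝ) ^ e' * Real.log n ^ m ≤ |K| * (n : ℝ) ^ e' * Real.log n ^ m := by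
            apply mul_le_mul_of_nonneg_right _ hlog
            exact mul_le_mul_of_nonneg_right (le_abs_self K) (by positivity)
        _ ≤ |K| * (n : ℝ) ^ e' * (n : ℝ) ^ s := by
            apply mul_le_mul_of_nonneg_left h9 (by positivity)
        _ = |K| * (n : ℝ) ^ (e' + s) := by rw [Real.rpow_add hn0]; ring
    have h12 : (n : ℝ) ^ e = (n : ℝ) ^ (e' + s) * (n : ℝ) ^ s := by
      rw [← Real.rpow_add hn0]; congr 1; rw [hs]; ring
    have h13 : (1:ℝ) ≤ (n : ℝ) ^ (e' + s) := Real.one_le_rpow hn1 (by linarith)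
    have hceil : ((⌈K * (n : ℝ) ^ e' * Real.log n ^ m⌉₊ : ℕ) : ℝ) ≤
        |K| * (n : ℝ) ^ (e' + s) + 1 := by
      have h14 : (⌈K * (n : ℝ) ^ e' * Real.log n ^ m⌉₊ : ℕ) ≤ ⌈|K| * (n : ℝ) ^ (e' + s)⌉₊ :=
        Nat.ceil_mono h11
      have h15 : ((⌈|K| * (n : ℝ) ^ (e' + s)⌉₊ : ℕ) : ℝ) < |K| * (n : ℝ) ^ (e' + s) + 1 :=
        Nat.ceil_lt_add_one (by positivity)
      have h16 : ((⌈K * (n : ℝ) ^ e' * Real.log n ^ m⌉₊ : ℕ) : ℝ) ≤
        ((⌈|K| * (n : ℝ) ^ (e' + s)⌉₊ : ℕ) : ℝ) := by exact_mod_cast h14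
      linarith
    refine lt_of_le_of_lt hceil ?_
    rw [h12]
    calc |K| * (n : ℝ) ^ (e' + s) + 1 ≤ |K| * (n : ℝ) ^ (e' + s) + (n : ℝ) ^ (e' + s) := by linarith
      _ < (|K| + 2) * (n : ℝ) ^ (e' + s) := by nlinarith
      _ ≤ (c₀ * (n : ℝ) ^ s) * (n : ℝ) ^ (e' + s) :=
          mul_le_mul_of_nonneg_right h7 (by linarith)
      _ = c₀ * ((n : ℝ) ^ (e' + s) * (n : ℝ) ^ s) := by ring

end Pool.Agent.Results.MP_ebf3a9_co.FatFlatsLower
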